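import Pool.Agent.R550.DS.Red
import Pool.Agent.R550.GB.Graph

/-!
# Cliques as functions, lists of blocks
-/

namespace Pool.Agent.R550.W1

open Pool.Agent.NPC Pool.Agent.H557R2.Fpt Pool.Agent.R550.DS

/-- `k`-cliques correspond to functions choosing a vertex for every `i < k`. -/
theorem clique_iff (n k : ℕ) (x : List Bool) : ¬ (bitGraph n x).CliqueFree k ↔
    ∃ f : ℕ → ℕ, (∀ i < k, f i < n) ∧ ∀ i < k, ∀ j < k, alw n x i j (f i) (f j) = true := by
  classical
  constructor
  · intro h
    have φ := SimpleGraph.topEmbeddingOfNotCliqueFree h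
    let f : ℕ → ℕ := fun i => if h : i < k then (φ ⟨i, h⟩ : ℕ) else 0
    refine ⟨f, ?_, ?_⟩
    · intro i hi
      simp only [f, dif_pos hi]
      exact (φ ⟨i, hi⟩).2
    · intro i hi j hj
      unfold alw
      by_cases hij : i = j
      · subst hij
        simp
      · have h1 : (bitGraph n x).Adj (φ ⟨i, hi⟩) (φ ⟨j, hj⟩) := by
          rw [φ.map_adj_iff]
          simp only [SimpleGraph.top_adj, ne_eq, Fin.mk.injEq]
          exact hij
        obtain ⟨h2, h3⟩ := h1
        have h4 : f i ≠ f j := by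
          simp only [f, dif_pos hi, dif_pos hj]
          exact fun h => h2 (Fin.ext h)
        unfold adjB
        simp only [hij, decide_false, Bool.false_and, Bool.not_false, Bool.true_and, Bool.false_or,
          h4]
        simp only [f, dif_pos hi, dif_pos hj]
        exact h3
  · rintro ⟨f, hf, hal⟩
    have hadj : ∀ i < k, ∀ j < k, i ≠ j → adjB n x (f i) (f j) = true := by
      intro i hi j hj hij
      have h1 := hal i hi j hj
      unfold alw at h1
      simpa [hij] using h1
    have hne : ∀ i < k, ∀ j < k, i ≠ j → f i ≠ f j := by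
      intro i hi j hj hij h1
      have h2 := hadj i hi j hj hij
      unfold adjB at h2
      simp [h1] at h2
    have hinj : Function.Injective (fun i : Fin k => (⟨f i, hf i i.2⟩ : Fin n)) := by
      intro i j hij
      by_contra h1
      exact hne i i.2 j j.2 (fun h => h1 (Fin.ext h)) (by simpa using hij)
    intro hcf
    apply hcf (Finset.univ.map ⟨_, hinj⟩)
    rw [SimpleGraph.isNClique_iff]
    refine ⟨?_, by simp⟩
    intro y hy z hz hyz
    simp only [Finset.coe_map, Function.Embedding.coeFn_mk, Finset.coe_univ, Set.image_univ,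
      Set.mem_range] at hy hz
    obtain ⟨i, rfl⟩ := hy
    obtain ⟨j, rfl⟩ := hz
    have hij : (i : ℕ) ≠ j := fun h => hyz (by rw [Fin.ext h])
    refine ⟨hyz, ?_⟩
    have h2 := hadj i i.2 j j.2 hij
    unfold adjB at h2
    simp only [Bool.and_eq_true] at h2
    exact h2.2

/-! ### Lists of blocks -/

section

variable {β : Type}

/-- the list of the pairs `(b, l)`, `b ∈ bs`, `l < cnt b` -/
def blk (bs : List β) (cnt : β → ℕ) : List (β × ℕ) :=
  bs.flatMap fun b => (List.range (cnt b)).map fun l => (b, l)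

theorem mem_blk {bs : List β} {cnt : β → ℕ} {a : β × ℕ} :
    a ∈ blk bs cnt ↔ a.1 ∈ bs ∧ a.2 < cnt a.1 := by
  obtain ⟨b, l⟩ := a
  simp only [blk, List.mem_flatMap, List.mem_range, List.mem_map, Prod.mk.injEq]
  constructor
  · rintro ⟨b', hb, l', hl, rfl, rfl⟩
    exact ⟨hb, hl⟩
  · rintro ⟨hb, hl⟩
    exact ⟨b, hb, l, hl, rfl, rfl⟩

theorem nodup_blk {bs : List β} (h : bs.Nodup) (cnt : β → ℕ) : (blk bs cnt).Nodup := by
  unfold blk
  rw [List.nodup_flatMap]
  constructor
  · intro b _
    exact List.Nodup.map (fun i i' h => (Prod.mk.inj h).2) List.nodup_range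
  · refine h.imp fun {b b'} hne x hx hx' => ?_
    obtain ⟨i, _, rfl⟩ := List.mem_map.1 hx
    obtain ⟨i', _, h⟩ := List.mem_map.1 hx'
    exact hne (Prod.mk.inj h).1.symm

end

section

variable {α β : Type} [TEnc α] [TEnc β]

theorem poly_blk {bs : α → List β} {cnt : α → β → ℕ} (hb : NPC.Poly bs)
    (hc : UPoly (fun p : α × β => cnt p.1 p.2)) : NPC.Poly (fun a => blk (bs a) (cnt a)) := by
  unfold blk
  refine NPC.Poly.flatMap (F := fun a b => (List.range (cnt a b)).map fun l => (b, l)) hb ?_
  exact NPC.Poly.map (F := fun (p : α × β) l => (p.2, l)) hc.range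
    (NPC.Poly.pair (NPC.Poly.snd (NPC.Poly.fst NPC.Poly.id)) (NPC.Poly.snd NPC.Poly.id))

end

/-! ### Graphs on lists of labels -/

section

variable {L : Type}

/-- the adjacency lists of the graph on the list `vs` with the adjacency test `T` -/
def mkG (vs : List L) (T : L → L → Bool) : List (List ℕ) :=
  vs.map fun a => (vs.zipIdx.filter fun p => T a p.1).map fun p => p.2

theorem mkG_length (vs : List L) (T : L → L → Bool) : (mkG vs T).length = vs.length := by
  simp [mkG]

/-- **Labels.** -/
theorem mkG_lab (vs : List L) (hn : vs.Nodup) (T : L → L → Bool) :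
    ∃ lab : Fin (mkG vs T).length → L, Function.Injective lab ∧ (∀ v, lab v ∈ vs) ∧
      (∀ a ∈ vs, ∃ v, lab v = a) ∧ ∀ u v, (GB.graph (mkG vs T)).Adj u v ↔
        u ≠ v ∧ (T (lab u) (lab v) = true ∨ T (lab v) (lab u) = true) := by
  have hlen : (mkG vs T).length = vs.length := mkG_length _ _
  refine ⟨fun v => vs[(v : ℕ)]'(by rw [← hlen]; exact v.2), ?_, ?_, ?_, ?_⟩
  · intro u v h
    exact Fin.ext ((List.Nodup.getElem_inj_iff hn).1 h)
  · intro v
    exact List.getElem_mem _
  · intro a ha
    obtain ⟨j, hj, hj'⟩ := List.getElem_of_mem ha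
    exact ⟨⟨j, by rw [hlen]; exact hj⟩, hj'⟩
  · intro u v
    have key : ∀ u v : Fin (mkG vs T).length, (v : ℕ) ∈ (mkG vs T)[u] ↔
        T (vs[(u : ℕ)]'(by rw [← hlen]; exact u.2)) (vs[(v : ℕ)]'(by rw [← hlen]; exact v.2)) =
          true := by
      intro u v
      have hv : (v : ℕ) < vs.length := by rw [← hlen]; exact v.2
      rw [Fin.getElem_fin]
      simp only [mkG, List.getElem_map, List.mem_map, List.mem_filter]
      constructor
      · rintro ⟨⟨y, i⟩, ⟨h1, h2⟩, h3⟩
        rw [List.mem_zipIdx_iff_getElem?] at h1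
        simp only at h1 h2 h3
        subst h3
        rw [List.getElem?_eq_getElem hv] at h1
        simp only [Option.some.injEq] at h1
        subst h1
        exact h2
      · intro h
        refine ⟨(vs[(v : ℕ)], (v : ℕ)), ⟨?_, h⟩, rfl⟩
        rw [List.mem_zipIdx_iff_getElem?]
        exact List.getElem?_eq_getElem hv
    unfold GB.graph
    rw [SimpleGraph.fromRel_adj, key, key]

end

section

variable {α L : Type} [TEnc α] [TEnc L]

theorem poly_mkG {vs : α → List L} {t : α → L → L → Bool} (hvs : NPC.Poly vs)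
    (ht : NPC.Poly (fun p : (α × L) × L => t p.1.1 p.1.2 p.2)) :
    NPC.Poly (fun a => mkG (vs a) (t a)) := by
  unfold mkG
  refine NPC.Poly.map (F := fun a x => ((vs a).zipIdx.filter fun p => t a x p.1).map
    fun p => p.2) hvs ?_
  refine NPC.Poly.map (F := fun (_ : α × L) (p : L × ℕ) => p.2) ?_
    (by fun_prop)
  refine NPC.Poly.filter (p := fun (z : α × L) (p : L × ℕ) => t z.1 z.2 p.1)
    (NPC.Poly.zipIdx (hvs.comp (NPC.Poly.fst NPC.Poly.id))) ?_
  exact ht.comp (NPC.Poly.pair (NPC.Poly.pair (NPC.Poly.fst (NPC.Poly.fst NPC.Poly.id))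
    (NPC.Poly.snd (NPC.Poly.fst NPC.Poly.id))) (NPC.Poly.fst (NPC.Poly.snd NPC.Poly.id)))

end

end Pool.Agent.R550.W1
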