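import Pool.Agent.H557R2.Mve.Red

/-!
# W[1]-hardness of problems about data with a parameter
-/

namespace Pool.Agent.R550.W1

open Pool.Agent.NPC Pool.Agent.H557R2.Fpt

/-- The parameterized problem of the property `P` of pairs of a datum and a parameter. -/
def prob {β : Type} [TEnc β] (P : β → ℕ → Prop) : PProblem :=
  {y | ∃ b : β, y.1 = bits b ∧ P b y.2}

/-- The type of the inputs of the reductions: the number of the vertices in unary, the adjacency
matrix, the parameter in unary. -/
abbrev Inp : Type := List Unit × List Bool × List Unit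

section

variable {β : Type} [TEnc β]

/-- the reduction on coded data -/
def redF (f : Inp → β) (g : ℕ → ℕ) (y : List Bool × List Unit) : List Bool × List Unit :=
  (H557R2.Mve.findn y.1).elim (([], []) : List Bool × List Unit) fun n =>
    (bits (f ((List.range (min n y.1.length)).map (fun _ => ()), y.1, y.2)),
      (List.range (g y.2.length)).map (fun _ => ()))

theorem poly_redF {f : Inp → β} {g : ℕ → ℕ} (hf : NPC.Poly f)
    (hg : UPoly (fun l : List Unit => g l.length)) : NPC.Poly (redF f g) := by
  unfold redF
  refine NPC.Poly.optElim (H557R2.Mve.poly_findn.comp (NPC.Poly.fst NPC.Poly.id))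
    (NPC.Poly.const _) (NPC.Poly.pair (H557R2.Mve.poly_bits (hf.comp ?_)) ?_)
  · refine NPC.Poly.pair ?_ (by fun_prop)
    refine NPC.Poly.map (F := fun _ _ => ()) (UPoly.range ?_) (NPC.Poly.const _)
    exact UPoly.of_le (n := fun p : (List Bool × List Unit) × ℕ => p.1.1.length)
      (NPC.Poly.min (NPC.Poly.snd NPC.Poly.id)
        (UPoly.length (NPC.Poly.fst (NPC.Poly.fst NPC.Poly.id))).toPoly)
      (UPoly.length (NPC.Poly.fst (NPC.Poly.fst NPC.Poly.id))) (fun p => Nat.min_le_right _ _)
  · refine NPC.Poly.map (F := fun _ _ => ()) (UPoly.range ?_) (NPC.Poly.const _)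
    exact hg.comp (f := fun p : (List Bool × List Unit) × ℕ => p.1.2)
      (NPC.Poly.snd (NPC.Poly.fst NPC.Poly.id))

/-- the reduction -/
def redP (f : Inp → β) (g : ℕ → ℕ) (y : List Bool × ℕ) : List Bool × ℕ :=
  ((redF f g (y.1, List.replicate y.2 ())).1, (redF f g (y.1, List.replicate y.2 ())).2.length)

theorem pc_redP {f : Inp → β} {g : ℕ → ℕ} (hf : NPC.Poly f)
    (hg : UPoly (fun l : List Unit => g l.length)) : PC pcode pcode (redP f g) := by
  have h : PC (bits : List Bool × List Unit → List Bool) (bits : List Bool × List Unit → List Bool)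
    (redF f g) := poly_redF hf hg
  obtain ⟨c, p, h⟩ := h
  refine ⟨c, p, fun y => ?_⟩
  have h1 := h (y.1, List.replicate y.2 ())
  have e : pcode (redP f g y) = bits (redF f g (y.1, List.replicate y.2 ())) := by
    unfold pcode redP
    simp only
    congr 1
    refine Prod.ext rfl ?_
    simp only
    rw [eq_comm, List.eq_replicate_iff]
    exact ⟨rfl, fun _ _ => rfl⟩
  rw [e]
  exact h1

theorem redP_of_some {f : Inp → β} {g : ℕ → ℕ} {x : List Bool} {k n : ℕ}
    (h : H557R2.Mve.findn x = some n) :
    redP f g (x, k) = (bits (f (List.replicate n (), x, List.replicate k ())), g k) := by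
  have h1 : min n x.length = n := by
    rw [H557R2.Mve.findn_some h]
    exact min_eq_left (Nat.le_mul_self n)
  have h2 : (List.range n).map (fun _ => ()) = List.replicate n () := by
    rw [List.eq_replicate_iff]
    exact ⟨by simp, fun _ _ => rfl⟩
  unfold redP redF
  simp only [h, Option.elim, h1, h2]
  simp

theorem redP_of_none {f : Inp → β} {g : ℕ → ℕ} {x : List Bool} {k : ℕ}
    (h : H557R2.Mve.findn x = none) : redP f g (x, k) = ([], 0) := by
  unfold redP redF
  simp [h]

theorem mem_prob {P : β → ℕ → Prop} {b : β} {k : ℕ} : (bits b, k) ∈ prob P ↔ P b k := by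
  constructor
  · rintro ⟨b', h, h1⟩
    have : b = b' := bits_injective h
    rw [this]
    exact h1
  · intro h
    exact ⟨b, rfl, h⟩

/-- A polynomial-time map `f` from graphs with `k` to data such that `k`-cliques correspond to
`P (f ..) (g k)` shows that the problem of `P` is `W[1]`-hard. -/
theorem w1Hard_prob {P : β → ℕ → Prop} {f : Inp → β} {g : ℕ → ℕ} (hf : NPC.Poly f)
    (hg : UPoly (fun l : List Unit => g l.length)) (hc : Computable g) (hmono : Monotone g)
    (h : ∀ (n k : ℕ) (x : List Bool), x.length = n * n →
      (¬ (bitGraph n x).CliqueFree k ↔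
        P (f (List.replicate n (), x, List.replicate k ())) (g k))) :
    W1Hard (prob P) := by
  refine w1Hard_of (pc_redP hf hg) hc hmono (fun x k => ?_) (fun x k => ?_)
  · cases h1 : H557R2.Mve.findn x with
    | none => rw [redP_of_none h1]; exact Nat.zero_le _
    | some n => rw [redP_of_some h1]
  · cases h1 : H557R2.Mve.findn x with
    | none =>
      rw [redP_of_none h1]
      constructor
      · rintro ⟨n, hn, -⟩
        exact absurd hn (H557R2.Mve.findn_none h1 n)
      · rintro ⟨b, h2, -⟩
        exact absurd h2.symm (H557R2.Mve.bits_ne_nil _)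
    | some n =>
      have h2 := H557R2.Mve.findn_some h1
      rw [redP_of_some h1, mem_prob, ← h n k x h2, H557R2.Mve.mem_pClique_iff h2]

end

/-! ### Computable functions -/

theorem computable_mul {f g : ℕ → ℕ} (hf : Computable f) (hg : Computable g) :
    Computable fun k => f k * g k := comp_mul hf hg

/-! ### Products of lists -/

section

variable {α β γ : Type} [TEnc α] [TEnc β] [TEnc γ]

theorem poly_product {l : α → List β} {m : α → List γ} (hl : NPC.Poly l) (hm : NPC.Poly m) :
    NPC.Poly (fun a => List.product (l a) (m a)) := by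
  unfold List.product
  refine NPC.Poly.flatMap (F := fun a b => (m a).map (Prod.mk b)) hl ?_
  exact NPC.Poly.map (F := fun (p : α × β) c => (p.2, c)) (hm.comp (NPC.Poly.fst NPC.Poly.id))
    (NPC.Poly.pair (NPC.Poly.snd (NPC.Poly.fst NPC.Poly.id)) (NPC.Poly.snd NPC.Poly.id))

end

end Pool.Agent.R550.W1
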